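import Pool.Agent.Helper78.LN.Base

/-!
# Packet LN RUN: the runs of the simulating machine
-/

namespace Pool.Agent.Helper33.LN

open Pool.Agent.Helper81.CC Pool.Agent.Helper51.ZP Matrix
open Pool.Agent.Helper78.LN
open Pool.Agent.Helper78.LM (unitV eval_mono unitV_dot toVec_unitV run_inv)

theorem card_drop (T n k : ℕ) (h : T = k + n) (Q : List Bool → Prop) :
    Nat.card {ρ : Fin T → Bool // Q ((List.ofFn ρ).drop k)} =
      2 ^ k * Nat.card {r : Fin n → Bool // Q (List.ofFn r)} := by
  subst h
  have e1 : {p : (Fin k → Bool) × (Fin n → Bool) // Q (List.ofFn p.2)} ≃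
      {ρ : Fin (k + n) → Bool // Q ((List.ofFn ρ).drop k)} := by
    refine Equiv.subtypeEquiv (Fin.appendEquiv k n) ?_
    rintro ⟨a, b⟩
    have : (List.ofFn (Fin.appendEquiv k n (a, b))).drop k = List.ofFn b := by
      show (List.ofFn (Fin.append a b)).drop k = List.ofFn b
      rw [List.ofFn_fin_append, List.drop_append_of_le_length (by simp)]
      rw [List.drop_of_length_le (by simp)]
      rfl
    rw [this]
  have e2 : {p : (Fin k → Bool) × (Fin n → Bool) // Q (List.ofFn p.2)} ≃
      (Fin k → Bool) × {r : Fin n → Bool // Q (List.ofFn r)} :=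
    { toFun := fun p => (p.1.1, ⟨p.1.2, p.2⟩)
      invFun := fun p => ⟨(p.1, p.2.1), p.2.2⟩
      left_inv := fun _ => rfl
      right_inv := fun _ => rfl }
  rw [← Nat.card_congr e1, Nat.card_congr e2, Nat.card_prod]
  congr 1
  simp

theorem lm_run_append (R : Pool.Agent.Helper78.LM.LinMachine) (y : List Bool) :
    ∀ (ρ1 ρ2 : List Bool) (t : ℕ) (c : Pool.Agent.Helper78.LM.Conf (R.dim y)),
      R.run y t (ρ1 ++ ρ2) c = (R.run y t ρ1 c).bind (R.run y (t + ρ1.length) ρ2)
  | [], ρ2, t, c => by
    rw [Pool.Agent.Helper78.LM.LinMachine.run.eq_def R y t []]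
    rfl
  | b :: ρ1, ρ2, t, c => by
    rw [List.cons_append, Pool.Agent.Helper78.LM.LinMachine.run,
      Pool.Agent.Helper78.LM.LinMachine.run]
    cases h : R.step y t b c with
    | none => rfl
    | some c1 =>
      simp only [Option.bind_some]
      rw [lm_run_append R y ρ1 ρ2 (t + 1) c1, List.length_cons,
        show t + (ρ1.length + 1) = t + 1 + ρ1.length by ring]

/-- a run only appends answers -/
theorem run_prefix (A : LinMachine) (x : List Bool) :
    ∀ (ρ : List Bool) (t : ℕ) (c c' : Conf (A.dim x)), A.run x t ρ c = some c' → c.a <+: c'.a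
  | [], t, c, c', h => by
    rw [LinMachine.run, Option.some.injEq] at h
    rw [h]
  | b :: ρ, t, c, c', h => by
    rw [LinMachine.run] at h
    cases h1 : A.step x t b c with
    | none => rw [h1] at h; simp at h
    | some c1 =>
      rw [h1] at h
      simp only [Option.bind_some] at h
      have h2 := run_prefix A x ρ (t + 1) c1 c' h
      refine List.IsPrefix.trans ?_ h2
      rw [LinMachine.step] at h1
      split_ifs at h1 with h3 h4
      · rw [Option.some.injEq] at h1
        rw [← h1]
        exact List.prefix_append _ _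
      · rw [Option.some.injEq] at h1
        rw [← h1]

/-- the embedding of the memory -/
def embv {n : ℕ} (C N : ℕ) (v : Fin n → ZMod 2) : Fin N → ZMod 2 := fun i =>
  if h : (i : ℕ) < n then v ⟨i, h⟩ else if (i : ℕ) = C then 1 else 0

theorem sum_embv {N n C : ℕ} (hN : N = C + 1) (hn : n ≤ C) (g : ℕ → Bool) (l : List Bool)
    (v : Fin n → ZMod 2) (hg : ∀ i < n, g i = l.getD i false)
    (hg' : ∀ i, n ≤ i → i < C → g i = false) :
    ∑ i : Fin N, (if g i = true then (1 : ZMod 2) else 0) * embv C N v i =
      toVec n l ⬝ᵥ v + (if g C = true then 1 else 0) := by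
  subst hN
  rw [Fin.sum_univ_castSucc]
  congr 1
  · obtain ⟨k, rfl⟩ : ∃ k, C = n + k := ⟨C - n, by omega⟩
    rw [Fin.sum_univ_add]
    have h0 : ∑ i : Fin k, (if g ((Fin.natAdd n i).castSucc : Fin (n + k + 1)) = true
        then (1 : ZMod 2) else 0) * embv (n + k) (n + k + 1) v (Fin.natAdd n i).castSucc = 0 := by
      refine Finset.sum_eq_zero fun i _ => ?_
      have e1 : (((Fin.natAdd n i).castSucc : Fin (n + k + 1)) : ℕ) = n + i := rfl
      rw [e1, hg' (n + i) (by omega) (by omega)]
      simp
    rw [h0, add_zero]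
    refine Finset.sum_congr rfl fun i _ => ?_
    have e1 : (((Fin.castAdd k i).castSucc : Fin (n + k + 1)) : ℕ) = i := rfl
    have e2 : embv (n + k) (n + k + 1) v (Fin.castAdd k i).castSucc = v i := by
      rw [embv, dif_pos (show (((Fin.castAdd k i).castSucc : Fin (n + k + 1)) : ℕ) < n from i.2)]
      rfl
    rw [e2, e1, hg i i.2]
    rfl
  · have e2 : embv C (C + 1) v (Fin.last C) = 1 := by
      rw [embv, dif_neg (by simp; exact hn), if_pos (by simp)]
    rw [e2, mul_one]
    rfl

theorem getD_cut (n : ℕ) (l : List Bool) (i : ℕ) :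
    (cut n l).getD i false = (decide (i < n) && l.getD i false) := by
  rw [cut]
  by_cases h : i < n
  · rw [List.getD_eq_getElem?_getD, List.getElem?_map, List.getElem?_range h]
    simp [h]
  · rw [List.getD_eq_default _ _ (by simp; omega)]
    simp [h]

theorem getD_form (n : ℕ) (f : ℕ → Bool) (i : ℕ) (h : i < n) :
    ((List.range n).map f).getD i false = f i := by
  rw [List.getD_eq_getElem?_getD, List.getElem?_map, List.getElem?_range h]
  simp

theorem lm_toVec_nil (m : ℕ) : Pool.Agent.Helper78.LM.toVec m [] = 0 :=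
  Pool.Agent.Helper78.LM.toVec_nil m

section
variable (A : LinMachine)
  (h1 : PolyTimeComputable (encOf Pool.Agent.Helper78.LM.View) (encOf ℕ) (rNext A))
  (h2 : PolyTimeComputable (encOf Pool.Agent.Helper78.LM.View) (encOf (List ℕ)) (rPush A))
  (h3 : PolyTimeComputable (encOf Pool.Agent.Helper78.LM.View) (encOf (List Bool)) (rVec A))
  (h4 : PolyTimeComputable (encOf (List Bool × ℕ × ℕ)) (encOf (List Bool)) (rRow A))
  (h5 : PolyTimeComputable (encOf (List Bool × ℕ)) (encOf (List Bool)) (rForm A))
  (h6 : PolyTimeComputable (encOf (List Bool × ℕ)) (encOf Bool) (fun _ => false))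

theorem red_dim (y : List Bool) :
    (red A h1 h2 h3 h4 h5 h6).dim y = A.m.eval y.length + 1 := by
  show (A.m + 1).eval y.length = _
  simp

theorem red_stages (y : List Bool) :
    (red A h1 h2 h3 h4 h5 h6).stages y = A.T.eval y.length + 1 := by
  show (A.T + 1).eval y.length = _
  simp

theorem red_mat_unit (y : List Bool) (t : ℕ) (i : Fin ((red A h1 h2 h3 h4 h5 h6).dim y))
    (v : Fin ((red A h1 h2 h3 h4 h5 h6).dim y) → ZMod 2)
    (h : t < off A y ∨ A.m.eval (unpairL y).1.length ≤ i) :
    ((red A h1 h2 h3 h4 h5 h6).mat y t *ᵥ v) i = v i := by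
  have e : rRow A (y, t, (i : ℕ)) = unitV i := by
    rw [rRow]
    exact if_pos h
  show Pool.Agent.Helper78.LM.toVec _ (rRow A (y, t, (i : ℕ))) ⬝ᵥ v = v i
  rw [e]
  exact unitV_dot i.2 v

/-- the stages before the simulation -/
theorem red_step_pre (y : List Bool) (t : ℕ) (b : Bool)
    (c : Pool.Agent.Helper78.LM.Conf ((red A h1 h2 h3 h4 h5 h6).dim y)) (ht : t < off A y) :
    (red A h1 h2 h3 h4 h5 h6).step y t b c = some ⟨0, c.st.tail,
      c.v + Pool.Agent.Helper78.LM.toVec _ (if t = 0 then unitV (A.m.eval y.length) else []),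
      false⟩ := by
  have e1 : (red A h1 h2 h3 h4 h5 h6).value y t b c = 0 := by
    have : rForm A (y, t) = [] := by
      rw [rForm]
      exact if_pos ht
    show Pool.Agent.Helper78.LM.toVec _ (rForm A (y, t)) ⬝ᵥ _ = 0
    rw [this, lm_toVec_nil, zero_dotProduct]
  have e2 : (red A h1 h2 h3 h4 h5 h6).mem y t b c = c.v + Pool.Agent.Helper78.LM.toVec _
      (if t = 0 then unitV (A.m.eval y.length) else []) := by
    rw [Pool.Agent.Helper78.LM.LinMachine.mem]
    congr 1
    · funext i
      exact red_mat_unit A h1 h2 h3 h4 h5 h6 y t i c.v (Or.inl ht)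
    · congr 1
      show rVec A (y, t, c.q, c.st.headD 0, b, c.o) = _
      rw [rVec]
      exact if_pos ht
  have e3 : (red A h1 h2 h3 h4 h5 h6).next ((red A h1 h2 h3 h4 h5 h6).view y t b c) = 0 := by
    show rNext A (y, t, c.q, c.st.headD 0, b, c.o) = _
    rw [rNext]
    exact if_pos ht
  have e4 : (red A h1 h2 h3 h4 h5 h6).push ((red A h1 h2 h3 h4 h5 h6).view y t b c) = [] := by
    show rPush A (y, t, c.q, c.st.headD 0, b, c.o) = _
    rw [rPush]
    exact if_pos ht
  rw [Pool.Agent.Helper78.LM.LinMachine.step, if_pos (Or.inr e1), e1, e2, e3, e4]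
  rfl

/-- the embedding of the configurations -/
noncomputable def emb (x y : List Bool) (c : Conf (A.dim x)) :
    Pool.Agent.Helper78.LM.Conf ((red A h1 h2 h3 h4 h5 h6).dim y) :=
  ⟨c.q, c.st, embv (A.m.eval y.length) _ c.v, false⟩

/-- the stages of the simulation -/
theorem red_step (x s y : List Bool) (hy : unpairL y = (x, s)) (hxy : x.length ≤ y.length)
    (t : ℕ) (b : Bool) (c : Conf (A.dim x)) (hc : c.a = s.take (kk A x s t)) :
    (red A h1 h2 h3 h4 h5 h6).step y (off A y + t) b (emb A h1 h2 h3 h4 h5 h6 x y c) =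
      if A.value x t b c + (if (A.reads (x, t, c.a) && s.getD (kk A x s t) false) = true
          then 1 else 0) = 0 then
        some (emb A h1 h2 h3 h4 h5 h6 x y
          ⟨A.next (A.view x t b c), A.push (A.view x t b c) ++ c.st.tail, A.mem x t b c, c.a⟩)
      else none := by
  have hnt : ¬ off A y + t < off A y := by omega
  have hC : A.m.eval x.length ≤ A.m.eval y.length := eval_mono _ hxy
  have hN := red_dim A h1 h2 h3 h4 h5 h6 y
  have hkt : kt A y (off A y + t) = kk A x s t := by
    rw [kt, hy, Nat.add_sub_cancel_left]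
  have hsch : sch A y (off A y + t) = (x, t, c.a) := by
    rw [sch, hkt, hy, Nat.add_sub_cancel_left, hc]
  have hview : vw A ((red A h1 h2 h3 h4 h5 h6).view y (off A y + t) b
      (emb A h1 h2 h3 h4 h5 h6 x y c)) = A.view x t b c := by
    show ((unpairL y).1, off A y + t - off A y, (unpairL y).2.take (kt A y (off A y + t)), c.q,
      c.st.headD 0, b) = (x, t, c.a, c.q, c.st.headD 0, b)
    rw [hkt, hy, Nat.add_sub_cancel_left, hc]
  have e3 : (red A h1 h2 h3 h4 h5 h6).next ((red A h1 h2 h3 h4 h5 h6).view y (off A y + t) b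
      (emb A h1 h2 h3 h4 h5 h6 x y c)) = A.next (A.view x t b c) := by
    show rNext A ((red A h1 h2 h3 h4 h5 h6).view y (off A y + t) b
      (emb A h1 h2 h3 h4 h5 h6 x y c)) = _
    rw [rNext, if_neg (by exact hnt), hview, if_pos]
    exact (A.next_lt _).trans_le (eval_mono _ hxy)
  have e4 : (red A h1 h2 h3 h4 h5 h6).push ((red A h1 h2 h3 h4 h5 h6).view y (off A y + t) b
      (emb A h1 h2 h3 h4 h5 h6 x y c)) = A.push (A.view x t b c) := by
    show rPush A ((red A h1 h2 h3 h4 h5 h6).view y (off A y + t) b
      (emb A h1 h2 h3 h4 h5 h6 x y c)) = _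
    rw [rPush, if_neg (by exact hnt), hview, List.filter_eq_self]
    intro a ha
    exact decide_eq_true ((A.push_lt _ a ha).trans_le (eval_mono _ hxy))
  have e2 : (red A h1 h2 h3 h4 h5 h6).mem y (off A y + t) b (emb A h1 h2 h3 h4 h5 h6 x y c) =
      embv (A.m.eval y.length) _ (A.mem x t b c) := by
    funext i
    have hvec : (red A h1 h2 h3 h4 h5 h6).vec ((red A h1 h2 h3 h4 h5 h6).view y (off A y + t) b
        (emb A h1 h2 h3 h4 h5 h6 x y c)) = cut (A.m.eval x.length) (A.vec (A.view x t b c)) := by
      show rVec A ((red A h1 h2 h3 h4 h5 h6).view y (off A y + t) b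
        (emb A h1 h2 h3 h4 h5 h6 x y c)) = _
      rw [rVec, if_neg (by exact hnt), hview]
      show cut (A.m.eval (unpairL y).1.length) _ = _
      rw [hy]
    rw [Pool.Agent.Helper78.LM.LinMachine.mem, hvec, Pi.add_apply]
    have hv2 : Pool.Agent.Helper78.LM.toVec ((red A h1 h2 h3 h4 h5 h6).dim y)
        (cut (A.m.eval x.length) (A.vec (A.view x t b c))) i =
        if (decide ((i : ℕ) < A.m.eval x.length) && (A.vec (A.view x t b c)).getD i false) = true
          then 1 else 0 := by
      rw [Pool.Agent.Helper78.LM.toVec, getD_cut]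
    rw [hv2]
    by_cases hi : (i : ℕ) < A.m.eval x.length
    · have hrow : rRow A (y, off A y + t, (i : ℕ)) =
          cut (A.m.eval x.length) (A.row ((x, t, c.a), i)) := by
        rw [rRow, if_neg, hsch]
        · show cut (A.m.eval (unpairL y).1.length) _ = _
          rw [hy]
        · show ¬ (off A y + t < off A y ∨ A.m.eval (unpairL y).1.length ≤ i)
          rw [hy]
          simp only
          omega
      have hm : ((red A h1 h2 h3 h4 h5 h6).mat y (off A y + t) *ᵥ
          (emb A h1 h2 h3 h4 h5 h6 x y c).v) i = (A.mat x t c.a *ᵥ c.v) ⟨i, hi⟩ := by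
        show Pool.Agent.Helper78.LM.toVec _ (rRow A (y, off A y + t, (i : ℕ))) ⬝ᵥ
          embv (A.m.eval y.length) _ c.v = toVec _ (A.row ((x, t, c.a), i)) ⬝ᵥ c.v
        rw [hrow]
        have := sum_embv hN hC (fun j => (cut (A.m.eval x.length)
          (A.row ((x, t, c.a), i))).getD j false) (A.row ((x, t, c.a), i)) c.v
          (fun j hj => by rw [getD_cut]; simp [hj])
          (fun j hj _ => by rw [getD_cut]; simp [Nat.not_lt.2 hj])
        have h0 : (cut (A.m.eval x.length) (A.row ((x, t, c.a), i))).getD
            (A.m.eval y.length) false = false := by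
          rw [getD_cut]
          simp [Nat.not_lt.2 hC]
        rw [h0] at this
        simp only [Bool.false_eq_true, if_false, add_zero] at this
        exact this
      have hm2 : embv (A.m.eval y.length) ((red A h1 h2 h3 h4 h5 h6).dim y) (A.mem x t b c) i =
          A.mem x t b c ⟨i, hi⟩ := dif_pos hi
      rw [hm, hm2, LinMachine.mem, Pi.add_apply]
      congr 1
      rw [toVec]
      simp [hi]
    · rw [red_mat_unit A h1 h2 h3 h4 h5 h6 y _ i _ (Or.inr (by rw [hy]; exact Nat.not_lt.1 hi))]
      have hm1 : (emb A h1 h2 h3 h4 h5 h6 x y c).v i =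
          if (i : ℕ) = A.m.eval y.length then 1 else 0 := dif_neg hi
      have hm2 : embv (A.m.eval y.length) ((red A h1 h2 h3 h4 h5 h6).dim y) (A.mem x t b c) i =
          if (i : ℕ) = A.m.eval y.length then 1 else 0 := dif_neg hi
      rw [hm1, hm2]
      simp [hi]
  have e1 : (red A h1 h2 h3 h4 h5 h6).value y (off A y + t) b (emb A h1 h2 h3 h4 h5 h6 x y c) =
      A.value x t b c + (if (A.reads (x, t, c.a) && s.getD (kk A x s t) false) = true
          then 1 else 0) := by
    rw [Pool.Agent.Helper78.LM.LinMachine.value, e2]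
    have hform : ∀ j < A.m.eval y.length + 1, (rForm A (y, off A y + t)).getD j false =
        if j < A.m.eval x.length then (A.form (x, t, c.a)).getD j false
        else decide (j = A.m.eval y.length) && (A.reads (x, t, c.a) &&
          s.getD (kk A x s t) false) := by
      intro j hj
      rw [rForm, if_neg (by exact hnt), getD_form _ _ _ (by exact hj), hsch]
      simp only [hkt, hy]
    have := sum_embv hN hC (fun j => (rForm A (y, off A y + t)).getD j false)
      (A.form (x, t, c.a)) (A.mem x t b c)
      (fun j hj => by rw [hform j (by omega), if_pos hj])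
      (fun j hj hj' => by
        rw [hform j (by omega), if_neg (Nat.not_lt.2 hj)]
        simp [hj'.ne])
    simp only [hform _ (Nat.lt_succ_self _), if_neg (Nat.not_lt.2 hC), decide_true,
      Bool.true_and] at this
    exact this
  rw [Pool.Agent.Helper78.LM.LinMachine.step, e1, e2, e3, e4]
  have hr : ¬ ((red A h1 h2 h3 h4 h5 h6).reads (y, off A y + t) = true) := by
    show ¬ (false = true)
    simp
  by_cases hv : A.value x t b c + (if (A.reads (x, t, c.a) && s.getD (kk A x s t) false) = true
          then 1 else 0) = 0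
  · rw [if_pos (Or.inr hv), if_pos hv, hv]
    rfl
  · rw [if_neg (by rintro (h | h); exacts [hr h, hv h]), if_neg hv]

theorem kk_mono (x s : List Bool) (t k : ℕ) : kk A x s t ≤ kk A x s (t + k) := by
  induction k with
  | zero => exact le_rfl
  | succ k ih =>
    rw [← add_assoc, kk]
    omega

/-- the main claim -/
theorem main (x s y : List Bool) (hy : unpairL y = (x, s)) (hxy : x.length ≤ y.length) :
    ∀ (ρ : List Bool) (t : ℕ) (c : Conf (A.dim x)), c.a = s.take (kk A x s t) →
      kk A x s (t + ρ.length) ≤ s.length →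
      ((∃ c', A.run x t ρ c = some c' ∧ c'.q = 1 ∧ c'.st = [] ∧
          c'.a = s.take (kk A x s (t + ρ.length))) ↔
        ∃ c', (red A h1 h2 h3 h4 h5 h6).run y (off A y + t) ρ
          (emb A h1 h2 h3 h4 h5 h6 x y c) = some c' ∧ c'.q = 1 ∧ c'.st = [])
  | [], t, c, hc, hk => by
    rw [LinMachine.run, Pool.Agent.Helper78.LM.LinMachine.run]
    constructor
    · rintro ⟨c', h, hq, hst, -⟩
      rw [Option.some.injEq] at h
      subst h
      exact ⟨_, rfl, hq, hst⟩
    · rintro ⟨c', h, hq, hst⟩
      rw [Option.some.injEq] at h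
      subst h
      exact ⟨_, rfl, hq, hst, hc⟩
  | b :: ρ, t, c, hc, hk => by
    rw [LinMachine.run, Pool.Agent.Helper78.LM.LinMachine.run,
      red_step A h1 h2 h3 h4 h5 h6 x s y hy hxy t b c hc]
    have hlen : t + (b :: ρ).length = t + 1 + ρ.length := by
      rw [List.length_cons]
      ring
    rw [hlen] at hk ⊢
    have hkk : kk A x s (t + 1) = kk A x s t + (if A.reads (x, t, c.a) = true then 1 else 0) := by
      rw [kk, hc]
    by_cases hr : A.reads (x, t, c.a) = true
    · rw [LinMachine.step, if_pos hr]
      rw [if_pos hr] at hkk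
      have hlt : kk A x s t < s.length := by
        have := kk_mono A x s (t + 1) ρ.length
        omega
      have hget : s.getD (kk A x s t) false = s[kk A x s t] := by
        rw [List.getD_eq_getElem _ _ hlt]
      rw [hr, Bool.true_and, hget]
      simp only [Option.bind_some]
      by_cases hv : decide (A.value x t b c = 1) = s[kk A x s t]
      · have hz : A.value x t b c + (if s[kk A x s t] = true then 1 else 0) = 0 := by
          rw [← hv]
          generalize A.value x t b c = w
          revert w
          decide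
        rw [if_pos hz]
        simp only [Option.bind_some]
        have hc' : c.a ++ [decide (A.value x t b c = 1)] = s.take (kk A x s (t + 1)) := by
          rw [hkk, hc, hv]
          exact (List.take_append_getElem hlt)
        exact main x s y hy hxy ρ (t + 1) ⟨A.next (A.view x t b c),
          A.push (A.view x t b c) ++ c.st.tail, A.mem x t b c,
          c.a ++ [decide (A.value x t b c = 1)]⟩ hc' hk
      · have hz : ¬ A.value x t b c + (if s[kk A x s t] = true then 1 else 0) = 0 := by
          intro hz
          apply hv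
          revert hz
          generalize A.value x t b c = w
          generalize s[kk A x s t] = z
          revert w z
          decide
        rw [if_neg hz]
        constructor
        · rintro ⟨c', h, -, -, ha⟩
          exfalso
          have hp := run_prefix A x ρ (t + 1) _ c' h
          rw [ha, hc] at hp
          obtain ⟨l, hl⟩ := hp
          have hk' : kk A x s t < kk A x s (t + 1 + ρ.length) := by
            have := kk_mono A x s (t + 1) ρ.length
            omega
          have h5 := congrArg (fun l => l[kk A x s t]?) hl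
          simp only at h5
          rw [List.getElem?_take_of_lt hk', List.append_assoc,
            List.getElem?_append_right (by simp), List.length_take, min_eq_left hlt.le,
            Nat.sub_self, List.getElem?_eq_getElem hlt] at h5
          simp only [List.singleton_append, List.getElem?_cons_zero, Option.some.injEq] at h5
          exact hv h5
        · rintro ⟨c', h, -⟩
          simp at h
    · rw [Bool.not_eq_true] at hr
      rw [LinMachine.step, if_neg (by rw [hr]; simp), hr, Bool.false_and]
      rw [if_neg (by rw [hr]; simp)] at hkk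
      simp only [Bool.false_eq_true, if_false, add_zero] at hkk ⊢
      by_cases hv : A.value x t b c = 0
      · rw [if_pos hv, if_pos hv]
        simp only [Option.bind_some]
        exact main x s y hy hxy ρ (t + 1) ⟨A.next (A.view x t b c),
          A.push (A.view x t b c) ++ c.st.tail, A.mem x t b c, c.a⟩ (by rw [hkk]; exact hc) hk
      · rw [if_neg hv, if_neg hv]
        simp

end

/-- **RUN.** -/
theorem run : RunStmt := by
  intro A h1 h2 h3 h4 h5 h6 x s hk
  obtain ⟨y, hyd⟩ : ∃ y, y = pairEnc x s := ⟨_, rfl⟩
  have hy : unpairL y = (x, s) := by rw [hyd, unpairL_pairEnc]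
  have hxy : x.length ≤ y.length := by
    rw [hyd, pairEnc]
    simp
    omega
  rw [← hyd]
  have hT : A.T.eval x.length ≤ A.T.eval y.length := eval_mono _ hxy
  have hoff : off A y = A.T.eval y.length + 1 - A.stages x := by
    rw [off, hy]
    rfl
  have hst := red_stages A h1 h2 h3 h4 h5 h6 y
  have hs : A.stages x = A.T.eval x.length := rfl
  have hsum : (red A h1 h2 h3 h4 h5 h6).stages y = off A y + A.stages x := by
    rw [hst, hoff, hs]
    omega
  have hoff1 : 1 ≤ off A y := by
    rw [hoff, hs]
    omega
  rw [nAcc, Pool.Agent.Helper78.LM.LinMachine.acc]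
  have e := card_drop ((red A h1 h2 h3 h4 h5 h6).stages y) (A.stages x) (off A y) hsum
    (fun r => A.AcceptsWith x (s.take (kk A x s (A.stages x))) r)
  rw [hsum, Nat.add_sub_cancel]
  rw [hsum] at e
  rw [← e]
  refine Nat.card_congr (Equiv.subtypeEquivRight fun ρ => ?_)
  obtain ⟨l, hl⟩ : ∃ l, l = List.ofFn ρ := ⟨_, rfl⟩
  have hlen : l.length = off A y + A.stages x := by rw [hl]; simp
  rw [← hl]
  have hsplit : l = l.take (off A y) ++ l.drop (off A y) := (List.take_append_drop _ _).symm
  have hltake : (l.take (off A y)).length = off A y := by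
    rw [List.length_take, hlen]
    omega
  have hldrop : (l.drop (off A y)).length = A.stages x := by
    rw [List.length_drop, hlen]
    omega
  have hpre : (red A h1 h2 h3 h4 h5 h6).run y 0 (l.take (off A y)) ⟨0, [], 0, false⟩ =
      some (emb A h1 h2 h3 h4 h5 h6 x y ⟨0, [], 0, []⟩) := by
    obtain ⟨c', hc', hP⟩ := run_inv (red A h1 h2 h3 h4 h5 h6) y
      (fun t C => C.q = 0 ∧ C.st = [] ∧ C.o = false ∧
        C.v = if t = 0 then 0 else embv (A.m.eval y.length) _ (0 : Fin (A.dim x) → ZMod 2))
      (l.take (off A y)) 0 ⟨0, [], 0, false⟩ ⟨rfl, rfl, rfl, by simp⟩ (by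
        rintro i hi C ⟨hq, hst, ho, hv⟩
        rw [hltake] at hi
        refine ⟨_, red_step_pre A h1 h2 h3 h4 h5 h6 y (0 + i) _ C (by omega), rfl, ?_, rfl, ?_⟩
        · simp [hst]
        · have h10 : ¬ (0 + i + 1 = 0) := by omega
          rw [if_neg h10, hv]
          by_cases hi0 : 0 + i = 0
          · rw [if_pos hi0, if_pos hi0]
            show 0 + Pool.Agent.Helper78.LM.toVec _ (unitV (A.m.eval y.length)) = _
            rw [zero_add]
            funext j
            rw [toVec_unitV, embv]
            by_cases hj : (j : ℕ) < A.dim x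
            · rw [dif_pos hj, if_neg]
              · rfl
              · have hC : A.m.eval x.length ≤ A.m.eval y.length := eval_mono _ hxy
                have hd : A.dim x = A.m.eval x.length := rfl
                omega
            · rw [dif_neg hj]
          · rw [if_neg hi0, if_neg hi0]
            show _ + Pool.Agent.Helper78.LM.toVec _ [] = _
            rw [lm_toVec_nil, add_zero])
    rw [hltake, zero_add, if_neg (by omega)] at hP
    obtain ⟨hq, hst, ho, hv⟩ := hP
    rw [hc']
    congr 1
    cases c'
    simp only at hq hst ho hv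
    subst hq hst ho hv
    rfl
  have hrun : (red A h1 h2 h3 h4 h5 h6).run y 0 l ⟨0, [], 0, false⟩ =
      (red A h1 h2 h3 h4 h5 h6).run y (off A y + 0) (l.drop (off A y))
        (emb A h1 h2 h3 h4 h5 h6 x y ⟨0, [], 0, []⟩) := by
    conv_lhs => rw [hsplit]
    rw [lm_run_append, hpre, hltake, zero_add, add_zero]
    rfl
  have hm := main A h1 h2 h3 h4 h5 h6 x s y hy hxy (l.drop (off A y)) 0 ⟨0, [], 0, []⟩
    (by simp [kk]) (by rw [hldrop, zero_add]; exact hk)
  rw [hldrop, zero_add] at hm
  rw [Pool.Agent.Helper78.LM.LinMachine.Accepts, hrun, LinMachine.AcceptsWith]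
  exact hm.symm

end Pool.Agent.Helper33.LN
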